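import Pool.Agent.Helper113.FFinal

set_option autoImplicit false

/-!
# Coverings of partially ordered sets by highly directed sets

Adaptation of `Pool.Agent.Helper113.FBasic`, `FSmall` and `FMain`: the directed sets are replaced
by sets in which every subset of size at most `τ` has an upper bound.
-/

universe u

namespace Pool.Agent.Y972.DI

open Cardinal Set Pool.Agent.Helper113.G Pool.Agent.Helper113.F

/-- a scale with a growth condition above a given cardinal -/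
theorem exists_growing_scale_ge (lam : Cardinal.{u}) (hlam : lam.IsSingular)
    (G : Cardinal.{u} → Cardinal.{u}) (hG : ∀ c < lam, G c < lam) (τ : Cardinal.{u})
    (hτ : τ < lam) :
    ∃ mu : (lam.ord.cof).ord.ToType → Cardinal.{u}, Scale lam mu ∧
      (∀ i j, i < j → G (mu i) ≤ mu j) ∧ ∀ i, τ ≤ mu i := by
  classical
  obtain ⟨κ, hS, hg⟩ := exists_growing_scale lam hlam (fun c => max (G c) τ)
    (fun c hc => max_lt (hG c hc) hτ)
  have hlim : Order.IsSuccLimit lam.ord := Cardinal.isSuccLimit_ord hlam.aleph0_le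
  have hcofinf : ℵ₀ ≤ lam.ord.cof := by
    rw [Ordinal.aleph0_le_cof_iff, Ordinal.one_lt_cof_iff]
    exact hlim
  have hne : ∀ i : (lam.ord.cof).ord.ToType, (Ioi i).Nonempty := by
    intro i
    have h1 : #(Iic i) < #((lam.ord.cof).ord.ToType) := by
      have h2 : #(Iic i) ≤ #(Iio i) + 1 := by
        rw [← Iio_insert]
        exact Cardinal.mk_insert_le
      refine lt_of_le_of_lt h2 ?_
      refine Cardinal.add_lt_of_lt ?_ (hS.seg i) ?_
      · rw [Cardinal.mk_ord_toType]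
        exact hcofinf
      · rw [Cardinal.mk_ord_toType]
        exact one_lt_aleph0.trans_le hcofinf
    by_contra hemp
    rw [Set.not_nonempty_iff_eq_empty] at hemp
    have h3 : Iic i = Set.univ := by
      ext j
      simp only [mem_Iic, Set.mem_univ, iff_true]
      by_contra hj
      rw [not_le] at hj
      have : j ∈ (Ioi i) := hj
      rw [hemp] at this
      exact this
    rw [h3, Cardinal.mk_univ] at h1
    exact lt_irrefl _ h1
  let f : (lam.ord.cof).ord.ToType → (lam.ord.cof).ord.ToType := fun i =>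
    (wellFounded_lt (α := (lam.ord.cof).ord.ToType)).min (Ioi i) (hne i)
  have hf1 : ∀ i, i < f i := fun i => WellFounded.min_mem _ _ (hne i)
  have hf2 : ∀ i j, i < j → f i ≤ j := fun i j hij => by
    by_contra hlt
    rw [not_le] at hlt
    exact WellFounded.not_lt_min (wellFounded_lt (α := (lam.ord.cof).ord.ToType)) (Ioi i) hij hlt
  refine ⟨fun i => κ (f i), ⟨fun i => hS.inf _, fun i => hS.lt _, fun i => hS.cardI _, ?_, ?_, ?_,
    hS.seg⟩, ?_, ?_⟩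
  · intro i j hij
    exact hS.succ_le _ _ ((hf2 i j hij).trans_lt (hf1 j))
  · intro i
    refine ⟨κ i, (Order.lt_succ (κ i)).trans_le (hS.succ_le _ _ (hf1 i)), hS.inf i, hS.cardI i, ?_⟩
    intro j hj
    exact hS.mono (hf2 j i hj)
  · intro c hc
    obtain ⟨i, hi⟩ := hS.cofinal c hc
    exact ⟨i, hi.trans_le (hS.mono (hf1 i).le)⟩
  · intro i j hij
    exact (le_max_left _ _).trans (hg _ _ ((hf2 i j hij).trans_lt (hf1 j)))
  · intro i
    exact (le_max_right _ _).trans (hg _ _ (hf1 i))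

section
variable {Q : Type u} [Preorder Q]

/-- `C` is covered by at most `ν` sets in which all subsets of size at most `τ` have upper
bounds -/
def CovT (τ : Cardinal.{u}) (C : Set Q) (ν : Cardinal.{u}) : Prop :=
  ∃ 𝓘 : Set (Set Q), #𝓘 ≤ ν ∧ (∀ I ∈ 𝓘, Dir τ I) ∧ C ⊆ ⋃₀ 𝓘

theorem CovT.mono {τ : Cardinal.{u}} {C C' : Set Q} {ν ν' : Cardinal.{u}} (h : CovT τ C ν) (hC : C' ⊆ C)
    (hν : ν ≤ ν') : CovT τ C' ν' := by
  obtain ⟨𝓘, h1, h2, h3⟩ := h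
  exact ⟨𝓘, h1.trans hν, h2, hC.trans h3⟩

theorem CovT.iUnion {τ : Cardinal.{u}} {ι : Type u} {C : ι → Set Q} {ν : Cardinal.{u}} (hν : ℵ₀ ≤ ν)
    (hι : #ι ≤ ν) (h : ∀ i, CovT τ (C i) ν) : CovT τ (⋃ i, C i) ν := by
  choose 𝓘 h1 h2 h3 using h
  refine ⟨⋃ i, 𝓘 i, small_iUnion hν hι _ h1, ?_, ?_⟩
  · intro I hI
    obtain ⟨i, hi⟩ := mem_iUnion.1 hI
    exact h2 i I hi
  · intro x hx
    obtain ⟨i, hi⟩ := mem_iUnion.1 hx
    obtain ⟨I, hI, hxI⟩ := h3 i hi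
    exact ⟨I, mem_iUnion.2 ⟨i, hI⟩, hxI⟩

theorem CovT.union {τ : Cardinal.{u}} {C C' : Set Q} {ν : Cardinal.{u}} (hν : ℵ₀ ≤ ν)
    (h : CovT τ C ν) (h' : CovT τ C' ν) : CovT τ (C ∪ C') ν := by
  obtain ⟨𝓘, h1, h2, h3⟩ := h
  obtain ⟨𝓙, g1, g2, g3⟩ := h'
  refine ⟨𝓘 ∪ 𝓙, small_union hν h1 g1, ?_, ?_⟩
  · rintro I (hI | hI)
    · exact h2 I hI
    · exact g2 I hI
  · rintro x (hx | hx)
    · obtain ⟨I, hI, hxI⟩ := h3 hx
      exact ⟨I, Or.inl hI, hxI⟩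
    · obtain ⟨I, hI, hxI⟩ := g3 hx
      exact ⟨I, Or.inr hI, hxI⟩

theorem covT_Iic {τ : Cardinal.{u}} (a : Q) {ν : Cardinal.{u}} (hν : 1 ≤ ν) :
    CovT τ (Iic a) ν := by
  refine ⟨{Iic a}, by simpa using hν, ?_, by simp⟩
  rintro I rfl
  intro S hS _
  exact ⟨a, le_rfl, hS⟩

/-- The argument of Milner and Prikry. -/
theorem milner_prikry_t {κ τ : Cardinal.{u}} (hκ : ℵ₀ ≤ κ) (hτ : τ ≤ κ) (C : Set Q) :
    CovT τ C (2 ^ κ) ∨ ∃ A : Set Q, A ⊆ C ∧ IsAntichain (· ≤ ·) A ∧ κ < #A := by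
  obtain ⟨𝒟, h1, h2, h3⟩ := lemU (Q := C) (I := PUnit.{u+1}) (fun _ => κ) (fun _ => hκ)
    (fun _ _ _ => le_rfl) (fun i => by
      refine (Cardinal.mk_set_le _).trans ?_
      simp only [Cardinal.mk_fintype, Fintype.card_punit, Nat.cast_one]
      exact (one_lt_aleph0.le).trans hκ)
  by_cases h : ∀ x : C, ∃ D ∈ 𝒟 PUnit.unit, x ∈ D
  · left
    refine ⟨(fun D : Set C => (Subtype.val '' D : Set Q)) '' 𝒟 PUnit.unit,
      Cardinal.mk_image_le.trans (h1 _), ?_, ?_⟩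
    · rintro _ ⟨D, hD, rfl⟩
      have hdir : Dir τ D := (h2 _ D hD).mono (hτ.trans (Cardinal.cantor _).le)
      intro S hS' hc
      obtain ⟨b, hb, hb2⟩ := hdir (Subtype.val ⁻¹' S) (by
        intro x hx
        obtain ⟨y, hy, hyx⟩ := hS' hx
        have : y = x := Subtype.ext hyx
        exact this ▸ hy)
        ((Cardinal.mk_preimage_of_injective _ _ Subtype.val_injective).trans hc)
      refine ⟨b.1, ⟨b, hb, rfl⟩, ?_⟩
      intro s hs
      obtain ⟨y, hy, hys⟩ := hS' hs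
      have h4 := hb2 y (by change y.1 ∈ S; rw [hys]; exact hs)
      rw [← hys]
      exact h4
    · intro x hx
      obtain ⟨D, hD, hxD⟩ := h ⟨x, hx⟩
      exact ⟨_, ⟨D, hD, rfl⟩, ⟨⟨x, hx⟩, hxD, rfl⟩⟩
  · right
    push Not at h
    obtain ⟨x, hx⟩ := h
    obtain ⟨A, hA1, hA2⟩ := h3 x
    refine ⟨Subtype.val '' A, ?_, ?_, ?_⟩
    · rintro _ ⟨a, _, rfl⟩
      exact a.2
    · rintro _ ⟨a, ha, rfl⟩ _ ⟨b, hb, rfl⟩ hab hle
      exact hA1 ha hb (fun h => hab (congrArg _ h)) hle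
    · rw [Cardinal.mk_image_eq Subtype.val_injective]
      exact hA2 PUnit.unit (fun D hD => hx D hD)

/-- small sets are uniformly covered by few directed sets -/
theorem small_cov_t {lam τ : Cardinal.{u}} (hlam : lam.IsSingular) (hτ : τ < lam)
    (hsl : ∀ c < lam, (2 : Cardinal.{u}) ^ c < lam)
    (hA : ∀ A : Set Q, IsAntichain (· ≤ ·) A → #A < lam) :
    ∃ ν < lam, ∀ C : Set Q, #C < lam → CovT τ C ν := by
  classical
  by_contra hcon
  push Not at hcon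
  have h1 : ∀ ν : Cardinal.{u}, ∃ C : Set Q, #C < lam ∧ (ν < lam → ¬ CovT τ C ν) := by
    intro ν
    by_cases hν : ν < lam
    · obtain ⟨C, hC1, hC2⟩ := hcon ν hν
      exact ⟨C, hC1, fun _ => hC2⟩
    · exact ⟨∅, by simpa using hlam.pos, fun h => absurd h hν⟩
  choose C hC1 hC2 using h1
  set I := (lam.ord.cof).ord.ToType with hIdef
  obtain ⟨κ, hS, hg, hκge⟩ : ∃ κ : I → Cardinal.{u}, Scale lam κ ∧
      (∀ i j, i < j → #(C (2 ^ κ i)) ≤ κ j) ∧ ∀ i, τ ≤ κ i :=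
    exists_growing_scale_ge lam hlam (fun c => #(C (2 ^ c))) (fun c _ => hC1 _) τ hτ
  have hcI : #(lam.ord.cof).ord.ToType = lam.ord.cof := Cardinal.mk_ord_toType _
  have hcof0 : lam.ord.cof ≠ 0 := by
    rw [Ne, Ordinal.cof_eq_zero]
    intro h0
    exact hlam.pos.ne' (by simpa using h0)
  have hIne : Nonempty (lam.ord.cof).ord.ToType := by
    rw [← Cardinal.mk_ne_zero_iff, hcI]
    exact hcof0
  have hτinf : ∀ i, ℵ₀ ≤ (2 : Cardinal.{u}) ^ κ i := fun i =>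
    (hS.inf i).trans (Cardinal.cantor _).le
  let D : I → Set Q := fun i => C (2 ^ κ i)
  have hD : ∀ i, ¬ CovT τ (D i) (2 ^ κ i) := fun i => hC2 _ (hsl _ (hS.lt i))
  let U : I → Set Q := fun i => ⋃ j ∈ Iio i, D j
  have hU : ∀ i, #(U i) ≤ κ i := by
    intro i
    refine small_biUnion (hS.inf i) (Iio i) ((Cardinal.mk_set_le _).trans (hS.cardI i)) _ ?_
    intro j hj
    exact hg j i hj
  have hstep : ∀ i, ∃ x ∈ D i, ¬ CovT τ {y ∈ D i | ∀ a ∈ U i, (a ≤ y ↔ a ≤ x) ∧ (y ≤ a ↔ x ≤ a)}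
      (2 ^ κ i) := by
    intro i
    by_contra hno
    push Not at hno
    apply hD i
    let tr : Q → Set (U i) × Set (U i) := fun y => ({a | a.1 ≤ y}, {a | y ≤ a.1})
    have hcov : ∀ t : Set (U i) × Set (U i), CovT τ {y ∈ D i | tr y = t} (2 ^ κ i) := by
      intro t
      by_cases ht : ∃ x ∈ D i, tr x = t
      · obtain ⟨x, hx, hxt⟩ := ht
        refine (hno x hx).mono ?_ le_rfl
        rintro y ⟨hy, hyt⟩
        refine ⟨hy, ?_⟩
        intro a ha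
        have heq : tr y = tr x := hyt.trans hxt.symm
        have e1 : ({a | a.1 ≤ y} : Set (U i)) = {a | a.1 ≤ x} := congrArg Prod.fst heq
        have e2 : ({a | y ≤ a.1} : Set (U i)) = {a | x ≤ a.1} := congrArg Prod.snd heq
        constructor
        · have := Set.ext_iff.1 e1 ⟨a, ha⟩
          exact this
        · have := Set.ext_iff.1 e2 ⟨a, ha⟩
          exact this
      · have : {y ∈ D i | tr y = t} = ∅ := by
          ext y
          constructor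
          · rintro ⟨h1, h2⟩
            exact absurd ⟨y, h1, h2⟩ ht
          · intro h
            exact absurd h (by simp)
        rw [this]
        exact ⟨∅, by simp, by simp, by simp⟩
    refine (CovT.iUnion (hτinf i) ?_ hcov).mono ?_ le_rfl
    · rw [Cardinal.mk_prod, Cardinal.lift_id, Cardinal.mk_set]
      have : (2 : Cardinal.{u}) ^ #(U i) ≤ 2 ^ κ i :=
        Cardinal.power_le_power_left two_ne_zero (hU i)
      calc _ ≤ (2 : Cardinal.{u}) ^ κ i * 2 ^ κ i := mul_le_mul' this this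
        _ = 2 ^ κ i := Cardinal.mul_eq_self (hτinf i)
    · intro y hy
      exact mem_iUnion.2 ⟨tr y, hy, rfl⟩
  choose x hx1 hx2 using hstep
  have hstep2 : ∀ i, ∃ A : Set Q, A ⊆ {y ∈ D i | (∀ a ∈ U i, (a ≤ y ↔ a ≤ x i) ∧
      (y ≤ a ↔ x i ≤ a)) ∧ ∀ j, i < j → ¬ y ≤ x j} ∧ IsAntichain (· ≤ ·) A ∧ κ i < #A := by
    intro i
    rcases milner_prikry_t (hS.inf i) (hκge i) {y ∈ D i | (∀ a ∈ U i, (a ≤ y ↔ a ≤ x i) ∧
      (y ≤ a ↔ x i ≤ a)) ∧ ∀ j, i < j → ¬ y ≤ x j} with h | h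
    · exfalso
      apply hx2 i
      have h2 : CovT τ (⋃ j, Iic (x j)) (2 ^ κ i) :=
        CovT.iUnion (hτinf i) ((hS.cardI i).trans (Cardinal.cantor _).le)
          (fun j => covT_Iic _ ((one_lt_aleph0.le).trans (hτinf i)))
      refine (h.union (hτinf i) h2).mono ?_ le_rfl
      rintro y ⟨hy1, hy2⟩
      by_cases hy : ∀ j, i < j → ¬ y ≤ x j
      · exact Or.inl ⟨hy1, hy2, hy⟩
      · push Not at hy
        obtain ⟨j, _, hj⟩ := hy
        exact Or.inr (mem_iUnion.2 ⟨j, hj⟩)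
    · exact h
  choose A hA1 hA2 hA3 using hstep2
  have hcross : ∀ i j, i < j → ∀ a ∈ A i, ∀ b ∈ A j, ¬ a ≤ b ∧ ¬ b ≤ a := by
    intro i j hij a ha b hb
    have ha' := hA1 i ha
    have hb' := hA1 j hb
    have haU : a ∈ U j := by
      simp only [U, mem_iUnion]
      exact ⟨i, hij, ha'.1⟩
    refine ⟨?_, ?_⟩
    · intro hab
      exact ha'.2.2 j hij ((hb'.2.1 a haU).1.1 hab)
    · intro hba
      apply hx2 j
      refine (covT_Iic a ((one_lt_aleph0.le).trans (hτinf j))).mono ?_ le_rfl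
      rintro y ⟨hy1, hy2⟩
      exact (hy2 a haU).2.2 ((hb'.2.1 a haU).2.1 hba)
  have hanti : IsAntichain (· ≤ ·) (⋃ i, A i) := by
    intro a ha b hb hab
    obtain ⟨i, hi⟩ := mem_iUnion.1 ha
    obtain ⟨j, hj⟩ := mem_iUnion.1 hb
    rcases lt_trichotomy i j with h | h | h
    · exact (hcross i j h a hi b hj).1
    · subst h
      exact hA2 i hi hj hab
    · exact (hcross j i h b hj a hi).2
  have hlt := hA _ hanti
  obtain ⟨i, hi⟩ := hS.cofinal _ hlt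
  have : #(A i) ≤ #(⋃ i, A i) := Cardinal.mk_le_mk_of_subset (subset_iUnion A i)
  exact absurd (hi.trans (hA3 i)) (not_lt.2 this)

/-- Lemma K -/
theorem lemK_t {lam τ : Cardinal.{u}} (hlam : lam.IsSingular) (hτ : τ < lam)
    (hsl : ∀ c < lam, (2 : Cardinal.{u}) ^ c < lam) (hQ : #Q ≤ lam)
    (hA : ∀ A : Set Q, IsAntichain (· ≤ ·) A → #A < lam) :
    ∃ ν < lam, CovT τ (univ : Set Q) ν := by
  classical
  obtain ⟨ν, hν, hcov⟩ := small_cov_t hlam hτ hsl hA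
  set I := (lam.ord.cof).ord.ToType with hIdef
  obtain ⟨κ, hS⟩ : ∃ κ : I → Cardinal.{u}, Scale lam κ := exists_scale lam hlam
  have hcI : #(lam.ord.cof).ord.ToType = lam.ord.cof := Cardinal.mk_ord_toType _
  have hcof0 : lam.ord.cof ≠ 0 := by
    rw [Ne, Ordinal.cof_eq_zero]
    intro h0
    exact hlam.pos.ne' (by simpa using h0)
  have hIne : Nonempty (lam.ord.cof).ord.ToType := by
    rw [← Cardinal.mk_ne_zero_iff, hcI]
    exact hcof0
  have hlt : lam ≤ #(Σ n : I, (κ n).out) := by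
    by_contra hc
    obtain ⟨n, hn⟩ := hS.cofinal _ (not_le.1 hc)
    have hinj : Function.Injective (fun y : (κ n).out => (⟨n, y⟩ : Σ n : I, (κ n).out)) := by
      intro x y h
      simpa using (Sigma.mk.inj h).2
    have h2 : κ n ≤ #(Σ n : I, (κ n).out) := by
      calc κ n = #((κ n).out) := (Cardinal.mk_out _).symm
        _ ≤ _ := Cardinal.mk_le_of_injective hinj
    exact absurd hn (not_lt.2 h2)
  obtain ⟨f⟩ := hQ.trans hlt
  let i0 : I := Classical.arbitrary I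
  let ν' : Cardinal.{u} := max ν (κ i0)
  have hν' : ν' < lam := max_lt hν (hS.lt i0)
  refine ⟨ν', hν', ?_⟩
  have hinf : ℵ₀ ≤ ν' := (hS.inf i0).trans (le_max_right _ _)
  refine (CovT.iUnion (C := fun n : I => {q : Q | (f q).1 = n}) hinf
    ((hS.cardI i0).trans (le_max_right _ _)) ?_).mono ?_ le_rfl
  · intro n
    refine (hcov _ ?_).mono le_rfl (le_max_left _ _)
    refine lt_of_le_of_lt ?_ (hS.lt n)
    have h3' : ∀ (p : Σ n : I, (κ n).out), p.1 = n → ∃ y : (κ n).out, p = ⟨n, y⟩ := by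
      rintro ⟨m, y⟩ hp
      simp only at hp
      subst hp
      exact ⟨y, rfl⟩
    have h3 : ∀ q : {q : Q | (f q).1 = n}, ∃ y : (κ n).out, f q.1 = ⟨n, y⟩ :=
      fun q => h3' (f q.1) q.2
    choose y hy using h3
    calc #({q : Q | (f q).1 = n}) ≤ #((κ n).out) := by
          refine Cardinal.mk_le_of_injective (f := y) ?_
          intro a b hab
          apply Subtype.ext
          apply f.injective
          rw [hy a, hy b, hab]
      _ = κ n := Cardinal.mk_out _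
  · intro q _
    exact mem_iUnion.2 ⟨(f q).1, rfl⟩

end

section
variable {P : Type u} [PartialOrder P]

theorem core_t {lam τ : Cardinal.{u}} (hlam : lam.IsSingular) (hτ : τ < lam)
    (hsl : ∀ c < lam, (2 : Cardinal.{u}) ^ c < lam)
    (hA : ∀ A : Set P, IsAntichain (· ≤ ·) A → #A < lam) :
    ∃ ν < lam, CovT τ (univ : Set P) ν := by
  classical
  by_contra hcon
  push Not at hcon
  set I := (lam.ord.cof).ord.ToType with hIdef
  obtain ⟨κ, hS, hg, hκge⟩ : ∃ κ : I → Cardinal.{u}, Scale lam κ ∧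
      (∀ i j, i < j → Order.succ (2 ^ κ i) ≤ κ j) ∧ ∀ i, τ ≤ κ i :=
    exists_growing_scale_ge lam hlam (fun c => Order.succ (2 ^ c))
      (fun c hc => hlam.isSuccLimit.succ_lt (hsl c hc)) τ hτ
  have hcI : #I = lam.ord.cof := Cardinal.mk_ord_toType _
  have hcof0 : lam.ord.cof ≠ 0 := by
    rw [Ne, Ordinal.cof_eq_zero]
    intro h0
    exact hlam.pos.ne' (by simpa using h0)
  have hIne : Nonempty I := by
    rw [← Cardinal.mk_ne_zero_iff, hcI]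
    exact hcof0
  have hlim : Order.IsSuccLimit lam.ord := Cardinal.isSuccLimit_ord hlam.aleph0_le
  have hcofinf : ℵ₀ ≤ lam.ord.cof := by
    rw [Ordinal.aleph0_le_cof_iff, Ordinal.one_lt_cof_iff]
    exact hlim
  have hinf := hlam.aleph0_le
  have hτinf : ∀ i, ℵ₀ ≤ (2 : Cardinal.{u}) ^ κ i := fun i =>
    (hS.inf i).trans (Cardinal.cantor _).le
  have hκτ : ∀ i, κ i ≤ 2 ^ κ i := fun i => (Cardinal.cantor _).le
  have hτlt : ∀ i, (2 : Cardinal.{u}) ^ κ i < lam := fun i => hsl _ (hS.lt i)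
  have hτmono : ∀ i j, i ≤ j → (2 : Cardinal.{u}) ^ κ i ≤ 2 ^ κ j := fun i j hij =>
    Cardinal.power_le_power_left two_ne_zero (hS.mono hij)
  have hτpow : ∀ i, ((2 : Cardinal.{u}) ^ κ i) ^ κ i = 2 ^ κ i := by
    intro i
    rw [← Cardinal.power_mul, Cardinal.mul_eq_self (hS.inf i)]
  obtain ⟨𝒟, hD1, hD2, hD3⟩ := lemU_on hS hA univ
  let T : I → Set (Set P) := fun i => dn '' 𝒟 i
  have hT1 : ∀ i, #(T i) ≤ 2 ^ κ i := fun i => Cardinal.mk_image_le.trans (hD1 i)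
  have hT2 : ∀ i, ∀ J ∈ T i, Dir (2 ^ κ i) J := by
    rintro i _ ⟨D, hD, rfl⟩
    exact dn_dir (hD2 i D hD).2
  let TT : Set (Set P) := ⋃ i, T i
  have hTT1 : #TT ≤ lam := small_iUnion hinf hS.cardI_lam _ (fun i => (hT1 i).trans (hτlt i).le)
  have hlow : ∀ J ∈ TT, ∀ x y, y ∈ J → x ≤ y → x ∈ J := by
    intro J hJ x y hy hxy
    obtain ⟨i, D, hD, rfl⟩ := mem_iUnion.1 hJ
    obtain ⟨d, hd, hyd⟩ := hy
    exact ⟨d, hd, hxy.trans hyd⟩
  by_cases hT : ∀ A : Set TT, IsAntichain (· ≤ ·) A → #A < lam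
  · obtain ⟨ν, hν, JJ, h1, h2, h3⟩ := lemK_t hlam hτ hsl hTT1 hT
    apply hcon ν hν
    refine ⟨(fun J : Set TT => ⋃ t ∈ J, t.1) '' JJ, Cardinal.mk_image_le.trans h1, ?_, ?_⟩
    · rintro _ ⟨J, hJ, rfl⟩
      intro S hS' hc
      have h4 : ∀ x : S, ∃ t ∈ J, x.1 ∈ t.1 := by
        intro x
        have h5 := hS' x.2
        simp only [mem_iUnion] at h5
        obtain ⟨t, ht, hxt⟩ := h5
        exact ⟨t, ht, hxt⟩
      choose t ht1 ht2 using h4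
      obtain ⟨t'', ht'', hle⟩ := h2 J hJ (range t) (by rintro _ ⟨x, rfl⟩; exact ht1 x)
        (Cardinal.mk_range_le.trans hc)
      obtain ⟨i, hi⟩ := mem_iUnion.1 t''.2
      obtain ⟨z, hz, hz2⟩ := ((hT2 i _ hi).mono ((hκge i).trans (hκτ i))) S (by
        intro x hx
        exact (hle _ ⟨⟨x, hx⟩, rfl⟩) (ht2 ⟨x, hx⟩)) hc
      refine ⟨z, ?_, hz2⟩
      simp only [mem_iUnion]
      exact ⟨t'', ht'', hz⟩
    · intro x _
      obtain ⟨i0, hi0⟩ := hD3 x (mem_univ x)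
      obtain ⟨D, hD, hxD⟩ := hi0 i0 le_rfl
      obtain ⟨J, hJ, htJ⟩ := h3 (mem_univ (⟨dn D, mem_iUnion.2 ⟨i0, D, hD, rfl⟩⟩ : TT))
      refine ⟨_, ⟨J, hJ, rfl⟩, ?_⟩
      simp only [mem_iUnion]
      exact ⟨_, htJ, ⟨x, hxD, le_rfl⟩⟩
  push Not at hT
  obtain ⟨A0, hA01, hA02⟩ := hT
  let AA : Set (Set P) := Subtype.val '' A0
  have hAT : ∀ J ∈ AA, J ∈ TT := by
    rintro _ ⟨t, _, rfl⟩
    exact t.2
  have hAanti : ∀ J ∈ AA, ∀ J' ∈ AA, J ≠ J' → ¬ J ⊆ J' := by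
    rintro _ ⟨t, ht, rfl⟩ _ ⟨t', ht', rfl⟩ hne hsub
    exact hA01 ht ht' (fun h => hne (congrArg _ h)) hsub
  have hAcard : lam ≤ #AA := by
    rw [Cardinal.mk_image_eq Subtype.val_injective]
    exact hA02
  have hAdir : ∀ J ∈ AA, ∃ i, Dir (2 ^ κ i) J := by
    intro J hJ
    obtain ⟨i, hi⟩ := mem_iUnion.1 (hAT J hJ)
    exact ⟨i, hT2 i J hi⟩
  -- the structure of each member of `AA`
  have hE : ∀ E ∈ AA, ∃ (DE : I → Set (Set P)) (i0 : I), (∀ i, #(DE i) ≤ 2 ^ κ i) ∧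
      (∀ i, ∀ D ∈ DE i, D ⊆ E ∧ Dir (2 ^ κ i) D) ∧
      ∀ x ∈ E, ∃ y ∈ E, x ≤ y ∧ ∀ i, i0 ≤ i → ∃ D ∈ DE i, y ∈ D := by
    intro E hEA
    obtain ⟨DE, h1, h2, h3⟩ := lemU_on hS hA E
    by_contra hno
    have hno' : ∀ i0, ∃ x ∈ E, ∀ y ∈ E, x ≤ y → ∃ i, i0 ≤ i ∧ ∀ D ∈ DE i, y ∉ D := by
      intro i0
      by_contra hc
      push Not at hc
      exact hno ⟨DE, i0, h1, h2, hc⟩
    choose x hx1 hx2 using hno'
    obtain ⟨i, hi⟩ := hAdir E hEA
    obtain ⟨b, hb, hb2⟩ := hi (range x) (by rintro _ ⟨j, rfl⟩; exact hx1 j)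
      (Cardinal.mk_range_le.trans ((hS.cardI i).trans (hκτ i)))
    obtain ⟨i0, hi0⟩ := h3 b hb
    obtain ⟨j, hj, hj2⟩ := hx2 i0 b hb (hb2 _ ⟨i0, rfl⟩)
    obtain ⟨D, hD, hbD⟩ := hi0 j hj
    exact hj2 D hD hbD
  choose! DE st hDE1 hDE2 hDE3 using hE
  have key : ∀ E ∈ AA, ∀ J ∈ AA, E ≠ J → ∀ j, st E ≤ j → ∃ D ∈ DE E j, ¬ D ⊆ J := by
    intro E hEA J hJA hne j hj
    obtain ⟨x, hxE, hxJ⟩ := not_subset.1 (hAanti E hEA J hJA hne)
    obtain ⟨y, hyE, hxy, hy⟩ := hDE3 E hEA x hxE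
    obtain ⟨D, hD, hyD⟩ := hy j hj
    refine ⟨D, hD, ?_⟩
    intro hsub
    exact hxJ (hlow J (hAT J hJA) x y (hsub hyD) hxy)
  have hbig : ∀ i, ∃ (Tt : Set (Set P)) (s : I), Tt ⊆ AA ∧
      (∀ E ∈ Tt, Dir (2 ^ κ i) E ∧ st E ≤ s) ∧ #Tt ≤ Order.succ (2 ^ κ i) ∧
      ¬ #Tt ≤ 2 ^ κ i := by
    intro i
    have h1 : ¬ #{E ∈ AA | Dir (2 ^ κ i) E} ≤ 2 ^ κ i := by
      intro h
      have h2 : #AA ≤ 2 ^ κ i := by
        refine small_mono (t := {E ∈ AA | Dir (2 ^ κ i) E} ∪ ⋃ j ∈ Iio i, T j) ?_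
          (small_union (hτinf i) h (small_biUnion (hτinf i) (Iio i)
            ((Cardinal.mk_set_le _).trans ((hS.cardI i).trans (hκτ i))) _ ?_))
        · intro E hEA
          obtain ⟨j, hj⟩ := mem_iUnion.1 (hAT E hEA)
          rcases lt_or_ge j i with hji | hji
          · right
            simp only [mem_iUnion]
            exact ⟨j, hji, hj⟩
          · left
            exact ⟨hEA, (hT2 j E hj).mono (hτmono i j hji)⟩
        · intro j hj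
          exact (hT1 j).trans (hτmono j i (le_of_lt hj))
      exact absurd (hAcard.trans h2) (not_le.2 (hτlt i))
    obtain ⟨B0, hB0, hB0c⟩ := Cardinal.le_mk_iff_exists_subset.1
      (Order.succ_le_of_lt (not_le.1 h1))
    obtain ⟨s, hs⟩ := pigeon (hτinf i) B0 (by rw [hB0c]; exact not_le.2 (Order.lt_succ _))
      ((hS.cardI i).trans (hκτ i)) st
    refine ⟨{E ∈ B0 | st E = s}, s, ?_, ?_, ?_, hs⟩
    · rintro E ⟨hE1, _⟩
      exact (hB0 hE1).1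
    · rintro E ⟨hE1, hE2⟩
      exact ⟨(hB0 hE1).2, hE2.le⟩
    · exact (small_mono (fun E hE => hE.1) le_rfl).trans hB0c.le
  choose Tt s hTt1 hTt2 hTt3 hTt4 using hbig
  let W : I → Set (Set P) := fun j => ⋃ i ∈ Iio j, Tt i
  have hW : ∀ j, #(W j) ≤ κ j := by
    intro j
    refine small_biUnion (hS.inf j) (Iio j) ((Cardinal.mk_set_le _).trans (hS.cardI j)) _ ?_
    intro i hi
    exact (hTt3 i).trans (hg i j hi)
  have hWA : ∀ j, W j ⊆ AA := by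
    intro j E hE
    simp only [W, mem_iUnion] at hE
    obtain ⟨i, _, hi⟩ := hE
    exact hTt1 i hi
  have hphi : ∀ j, ∃ (Φ : W j → Set P) (B : Set (Set P)), B ⊆ Tt j \ W j ∧ #B = κ j ∧
      ∀ J ∈ B, ∀ E : W j, st E.1 ≤ j → Φ E ∈ DE E.1 j ∧ ¬ Φ E ⊆ J := by
    intro j
    let Ej : Set (Set P) := {∅} ∪ ⋃ E ∈ W j, DE E j
    have hEj : #Ej ≤ 2 ^ κ j := by
      refine small_union (hτinf j) (small_singleton (hτinf j) _)
        (small_biUnion (hτinf j) (W j) ((hW j).trans (hκτ j)) _ ?_)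
      intro E hE
      exact hDE1 E (hWA j hE) j
    have hφ : ∀ J : Set P, ∃ φ : W j → Ej, J ∈ Tt j \ W j → ∀ E : W j, st E.1 ≤ j →
        (φ E).1 ∈ DE E.1 j ∧ ¬ (φ E).1 ⊆ J := by
      intro J
      by_cases hJ : J ∈ Tt j \ W j
      · have h1 : ∀ E : W j, ∃ D : Ej, st E.1 ≤ j → D.1 ∈ DE E.1 j ∧ ¬ D.1 ⊆ J := by
          intro E
          by_cases hE : st E.1 ≤ j
          · have hne : E.1 ≠ J := by
              intro h
              exact hJ.2 (h ▸ E.2)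
            obtain ⟨D, hD1, hD2⟩ := key E.1 (hWA j E.2) J (hTt1 j hJ.1) hne j hE
            refine ⟨⟨D, Or.inr ?_⟩, fun _ => ⟨hD1, hD2⟩⟩
            simp only [mem_iUnion]
            exact ⟨E.1, E.2, hD1⟩
          · exact ⟨⟨∅, Or.inl rfl⟩, fun h => absurd h hE⟩
        choose φ hφ using h1
        exact ⟨φ, fun _ => hφ⟩
      · exact ⟨fun _ => ⟨∅, Or.inl rfl⟩, fun h => absurd h hJ⟩
    choose φ hφ using hφ
    have hX : #(W j → Ej) ≤ 2 ^ κ j := by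
      rw [← Cardinal.power_def]
      calc #Ej ^ #(W j) ≤ (2 ^ κ j) ^ #(W j) := Cardinal.power_le_power_right hEj
        _ ≤ (2 ^ κ j) ^ κ j := Cardinal.power_le_power_left
            (Cardinal.aleph0_pos.trans_le (hτinf j)).ne' (hW j)
        _ = 2 ^ κ j := hτpow j
    obtain ⟨Φ0, hΦ0⟩ := pigeon (hτinf j) (Tt j \ W j)
      (not_small_diff (hτinf j) (hTt4 j) ((hW j).trans (hκτ j))) hX φ
    obtain ⟨B, hB, hBc⟩ := Cardinal.le_mk_iff_exists_subset.1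
      ((hκτ j).trans (not_le.1 hΦ0).le)
    refine ⟨fun E => (Φ0 E).1, B, fun J hJ => (hB hJ).1, hBc, ?_⟩
    intro J hJ E hE
    have h1 := hφ J (hB hJ).1 E hE
    have h2 : φ J = Φ0 := (hB hJ).2
    rw [h2] at h1
    exact h1
  choose Φ B hB1 hB2 hB3 using hphi
  have hBA : ∀ j, B j ⊆ AA := fun j J hJ => hTt1 j (hB1 j hJ).1
  have star : ∀ j, ∀ E ∈ W j, st E ≤ j → ∃ x ∈ E, ∀ J ∈ B j, x ∉ J := by
    intro j E hEW hst
    have h1 : ∀ J : B j, ∃ y ∈ Φ j ⟨E, hEW⟩, y ∉ J.1 := fun J =>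
      not_subset.1 (hB3 j J.1 J.2 ⟨E, hEW⟩ hst).2
    choose y hy1 hy2 using h1
    obtain ⟨J0, hJ0⟩ : (B j).Nonempty := by
      apply exists_of_not_small (c := 0)
      rw [hB2 j]
      exact not_le.2 (Cardinal.aleph0_pos.trans_le (hS.inf j))
    have hD := (hB3 j J0 hJ0 ⟨E, hEW⟩ hst).1
    obtain ⟨b, hb, hb2⟩ := (hDE2 E (hWA j hEW) j _ hD).2 (range y)
      (by rintro _ ⟨J, rfl⟩; exact hy1 J)
      (Cardinal.mk_range_le.trans ((hB2 j).le.trans (hκτ j)))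
    refine ⟨b, (hDE2 E (hWA j hEW) j _ hD).1 hb, ?_⟩
    intro J hJ hbJ
    exact hy2 ⟨J, hJ⟩ (hlow J (hAT J (hBA j hJ)) _ b hbJ (hb2 _ ⟨⟨J, hJ⟩, rfl⟩))
  obtain ⟨C, hC1, hC2⟩ := exists_sparse hcofinf (Ordinal.cof_ord_cof lam.ord) s
  have hfin : ∀ E ∈ ⋃ i ∈ C, B i, ∃ x ∈ E, ∀ J ∈ ⋃ i ∈ C, B i, J ≠ E → x ∉ J := by
    intro E hE
    simp only [mem_iUnion] at hE
    obtain ⟨i, hiC, hEi⟩ := hE
    have hEA : E ∈ AA := hBA i hEi
    have hETt : E ∈ Tt i := (hB1 i hEi).1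
    obtain ⟨hEdir, hEst⟩ := hTt2 i E hETt
    obtain ⟨e0, he0, -⟩ := hEdir ∅ (empty_subset _) (by simp)
    have h1 : ∀ j, ∃ x ∈ E, j ∈ C → i < j → ∀ J ∈ B j, x ∉ J := by
      intro j
      by_cases hj : j ∈ C ∧ i < j
      · obtain ⟨x, hx1, hx2⟩ := star j E (by
          simp only [W, mem_iUnion]
          exact ⟨i, hj.2, hETt⟩) (hEst.trans (hC1 i hiC j hj.1 hj.2))
        exact ⟨x, hx1, fun _ _ => hx2⟩
      · exact ⟨e0, he0, fun h2 h3 => absurd ⟨h2, h3⟩ hj⟩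
    have h2 : ∀ J : Set P, ∃ z ∈ E, J ∈ AA → J ≠ E → z ∉ J := by
      intro J
      by_cases hJ : J ∈ AA ∧ J ≠ E
      · obtain ⟨z, hz1, hz2⟩ := not_subset.1 (hAanti E hEA J hJ.1 hJ.2.symm)
        exact ⟨z, hz1, fun _ _ => hz2⟩
      · exact ⟨e0, he0, fun h2 h3 => absurd ⟨h2, h3⟩ hJ⟩
    choose x hx1 hx2 using h1
    choose z hz1 hz2 using h2
    obtain ⟨b, hb, hb2⟩ := hEdir (range x ∪ z '' (⋃ j ∈ Iic i, B j)) (by
      rintro _ (⟨j, rfl⟩ | ⟨J, _, rfl⟩)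
      · exact hx1 j
      · exact hz1 J) (by
      refine small_union (hτinf i) (Cardinal.mk_range_le.trans ((hS.cardI i).trans (hκτ i)))
        (Cardinal.mk_image_le.trans ?_)
      refine small_biUnion (hτinf i) (Iic i)
        ((Cardinal.mk_set_le _).trans ((hS.cardI i).trans (hκτ i))) _ ?_
      intro j hj
      exact (hB2 j).le.trans ((hS.mono hj).trans (hκτ i)))
    refine ⟨b, hb, ?_⟩
    intro J hJ hne hbJ
    simp only [mem_iUnion] at hJ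
    obtain ⟨j, hjC, hJj⟩ := hJ
    have hJA : J ∈ AA := hBA j hJj
    rcases lt_or_ge i j with hij | hij
    · exact hx2 j hjC hij J hJj (hlow J (hAT J hJA) _ b hbJ (hb2 _ (Or.inl ⟨j, rfl⟩)))
    · refine hz2 J hJA hne (hlow J (hAT J hJA) _ b hbJ (hb2 _ (Or.inr ⟨J, ?_, rfl⟩)))
      simp only [mem_iUnion]
      exact ⟨j, hij, hJj⟩
  have hPne : Nonempty P := by
    by_contra hP
    rw [not_nonempty_iff] at hP
    exact hcon 0 hlam.pos ⟨∅, by simp, by simp, fun p _ => isEmptyElim p⟩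
  choose! x hx1 hx2 using hfin
  have hinj : InjOn x (⋃ i ∈ C, B i) := by
    intro E hE J hJ hEJ
    by_contra hne
    have h1 := hx2 E hE J hJ (Ne.symm hne)
    rw [hEJ] at h1
    exact h1 (hx1 J hJ)
  have hBsub : ∀ J ∈ ⋃ i ∈ C, B i, J ∈ AA := by
    intro J hJ
    simp only [mem_iUnion] at hJ
    obtain ⟨j, _, hJj⟩ := hJ
    exact hBA j hJj
  have hanti : IsAntichain (· ≤ ·) (x '' (⋃ i ∈ C, B i)) := by
    rintro _ ⟨E, hE, rfl⟩ _ ⟨J, hJ, rfl⟩ hne hle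
    have hne' : J ≠ E := by
      rintro rfl
      exact hne rfl
    exact hx2 E hE J hJ hne' (hlow J (hAT J (hBsub J hJ)) _ _ (hx1 J hJ) hle)
  have hlt := hA _ hanti
  rw [Cardinal.mk_image_eq_of_injOn _ _ hinj] at hlt
  obtain ⟨i, hi⟩ := hS.cofinal _ hlt
  obtain ⟨j, hjC, hij⟩ := hC2 i
  have h1 : κ j ≤ #(⋃ i ∈ C, B i) := by
    rw [← hB2 j]
    exact Cardinal.mk_le_mk_of_subset (subset_biUnion_of_mem hjC)
  exact absurd (hi.trans_le (hS.mono hij)) (not_lt.2 h1)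

end

theorem ideals_of_covT {P : Type u} [PartialOrder P] {ν τ : Cardinal.{u}} (hτ : ℵ₀ ≤ τ)
    (h : CovT τ (univ : Set P) ν) :
    ∃ S : Set (Order.Ideal P), (∀ I ∈ S, ∀ T : Set P, (∀ t ∈ T, t ∈ I) → #T ≤ τ →
      ∃ b ∈ I, ∀ t ∈ T, t ≤ b) ∧ #S ≤ ν ∧ ∀ x : P, ∃ I ∈ S, x ∈ I := by
  classical
  obtain ⟨JJ, h1, h2, h3⟩ := h
  have hf : ∀ J : {J // J ∈ JJ ∧ J.Nonempty}, ∃ I : Order.Ideal P, ∀ x, x ∈ I ↔ x ∈ dn J.1 := by
    rintro ⟨J, hJ, hne⟩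
    refine ⟨⟨⟨dn J, ?_⟩, ?_, ?_⟩, fun x => Iff.rfl⟩
    · rintro a b hba ⟨d, hd, had⟩
      exact ⟨d, hd, hba.trans had⟩
    · obtain ⟨a, ha⟩ := hne
      exact ⟨a, a, ha, le_rfl⟩
    · rintro a ⟨d, hd, had⟩ b ⟨d', hd', hbd'⟩
      obtain ⟨e, he, hde, hd'e⟩ := (h2 J hJ).directedOn hτ d hd d' hd'
      exact ⟨e, ⟨e, he, le_rfl⟩, had.trans hde, hbd'.trans hd'e⟩
  choose f hf using hf
  refine ⟨range f, ?_, ?_, ?_⟩
  · rintro _ ⟨J, rfl⟩ T hT hc
    obtain ⟨b, hb, hb2⟩ := dn_dir (h2 J.1 J.2.1) T (fun t ht => (hf J t).1 (hT t ht)) hc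
    exact ⟨b, (hf J b).2 hb, hb2⟩
  · refine Cardinal.mk_range_le.trans (le_trans ?_ h1)
    exact Cardinal.mk_le_mk_of_subset (s := {J | J ∈ JJ ∧ J.Nonempty}) (fun J hJ => hJ.1)
  · intro x
    obtain ⟨J, hJ, hxJ⟩ := h3 (mem_univ x)
    exact ⟨f ⟨J, hJ, ⟨x, hxJ⟩⟩, ⟨_, rfl⟩, (hf _ x).2 ⟨x, hxJ, le_rfl⟩⟩

theorem final_t {P : Type u} [PartialOrder P] {μ τ : Cardinal.{u}} (hμ : μ.IsSingular)
    (hsl : μ.IsStrongLimit) (hτ : τ < μ)
    (h : ¬ ∃ A : Set P, IsAntichain (· ≤ ·) A ∧ #A = μ) :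
    ∃ S : Set (Order.Ideal P), (∀ I ∈ S, ∀ T : Set P, (∀ t ∈ T, t ∈ I) → #T ≤ τ →
      ∃ b ∈ I, ∀ t ∈ T, t ≤ b) ∧ #S < μ ∧ ∀ x : P, ∃ I ∈ S, x ∈ I := by
  have h0 : ℵ₀ < μ := by
    refine lt_of_le_of_ne hμ.aleph0_le ?_
    rintro rfl
    exact hμ.not_isRegular Cardinal.isRegular_aleph0
  obtain ⟨ν, hν, hcov⟩ := core_t (τ := max τ ℵ₀) hμ (max_lt hτ h0)
    (fun c hc => hsl.two_power_lt hc) (lt_of_noAntichain h)
  obtain ⟨S, hS1, hS, hS2⟩ := ideals_of_covT (le_max_right _ _) hcov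
  exact ⟨S, fun I hI T hT hc => hS1 I hI T hT (hc.trans (le_max_left _ _)), hS.trans_lt hν, hS2⟩

end Pool.Agent.Y972.DI
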