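import Pool.Agent.Helper113.FTable2
import Pool.Agent.Y972.DI.Dir

set_option autoImplicit false

/-!
# Coverings of partially ordered sets by highly directed sets: regular cardinals

Adaptation of `Pool.Agent.Helper113.FTable`: the directed sets are replaced by sets in which every
subset of size less than `μ` has an upper bound.
-/

universe u

namespace Pool.Agent.Y972.DI

open Cardinal Set Pool.Agent.Helper113.G Pool.Agent.Helper113.F

section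
variable {Q : Type u} [Preorder Q] {μ : Cardinal.{u}}

/-- every subset of size less than `μ` has an upper bound in `D` -/
def DirL (μ : Cardinal.{u}) (D : Set Q) : Prop :=
  ∀ S : Set Q, S ⊆ D → #S < μ → ∃ b ∈ D, ∀ s ∈ S, s ≤ b

theorem dirL_Iic (a : Q) : DirL μ (Iic a) := fun _ hS _ => ⟨a, le_rfl, fun _ hs => hS hs⟩

theorem DirL.directedOn (hμ : ℵ₀ ≤ μ) {D : Set Q} (h : DirL μ D) : DirectedOn (· ≤ ·) D := by
  intro x hx y hy
  obtain ⟨b, hb, hb2⟩ := h {x, y} (by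
    rintro z (rfl | rfl)
    · exact hx
    · exact hy) (lt_of_lt_of_le ((Set.toFinite _).lt_aleph0) hμ)
  exact ⟨b, hb, hb2 x (by simp), hb2 y (by simp)⟩

theorem dn_dirL {P : Type u} [PartialOrder P] {D : Set P} (h : DirL μ D) : DirL μ (dn D) := by
  intro S hS hc
  have h1 : ∀ s : S, ∃ d ∈ D, s.1 ≤ d := fun s => hS s.2
  choose d hd1 hd2 using h1
  obtain ⟨b, hb, hb2⟩ := h (range d) (by rintro _ ⟨s, rfl⟩; exact hd1 s)
    (Cardinal.mk_range_le.trans_lt hc)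
  exact ⟨b, ⟨b, hb, le_rfl⟩, fun s hs => (hd2 ⟨s, hs⟩).trans (hb2 _ ⟨⟨s, hs⟩, rfl⟩)⟩

/-- the common closed set -/
theorem closed_sets (hreg : μ.IsRegular) (hpow : ∀ c < μ, μ ^ c ≤ μ) :
    ∃ X : Set Q, #X ≤ μ ∧ ∀ Y ⊆ X, #Y < μ → ¬ DirL μ (IncSet Y) →
      ∃ W ⊆ X, #W < μ ∧ W ⊆ IncSet Y ∧ ∀ z ∈ IncSet Y, ¬ ∀ w ∈ W, w ≤ z := by
  classical
  have hch : ∀ Y : Set Q, ∃ S : Set Q, #S ≤ μ ∧ (¬ DirL μ (IncSet Y) →
      ∃ W ⊆ S, #W < μ ∧ W ⊆ IncSet Y ∧ ∀ z ∈ IncSet Y, ¬ ∀ w ∈ W, w ≤ z) := by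
    intro Y
    by_cases h : DirL μ (IncSet Y)
    · exact ⟨∅, by simp, fun h' => absurd h h'⟩
    · have h' := h
      unfold DirL at h'
      push Not at h'
      obtain ⟨W, hW1, hW2, hW3⟩ := h'
      refine ⟨W, hW2.le, fun _ => ⟨W, subset_rfl, hW2, hW1, ?_⟩⟩
      intro z hz hall
      obtain ⟨w, hw, hwz⟩ := hW3 z hz
      exact hwz (hall w hw)
  choose S hS1 hS2 using hch
  obtain ⟨X, hX1, hX2⟩ := exists_closed_lt hreg hpow S (fun Y _ => hS1 Y)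
  refine ⟨X, hX1, fun Y hY hc hd => ?_⟩
  obtain ⟨W, hW, h⟩ := hS2 Y hd
  exact ⟨W, hW.trans (hX2 Y hY hc), h⟩

/-- `μ ^ c ≤ μ` for `c < μ`: at most `μ` highly directed sets suffice. -/
theorem regular_cov_l (hreg : μ.IsRegular) (hpow : ∀ c < μ, μ ^ c ≤ μ)
    (hA : ∀ A : Set Q, IsAntichain (· ≤ ·) A → #A < μ) :
    ∃ 𝓘 : Set (Set Q), #𝓘 ≤ μ ∧ (∀ I ∈ 𝓘, DirL μ I) ∧ (Set.univ : Set Q) ⊆ ⋃₀ 𝓘 := by
  classical
  have hinf : ℵ₀ ≤ μ := hreg.aleph0_le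
  obtain ⟨X, hX1, hX2⟩ := closed_sets (Q := Q) hreg hpow
  by_contra hcon
  let D : Set (Set Q) := {D | DirL μ D ∧ ((∃ Y : Set Q, (Y ⊆ X ∧ #Y < μ) ∧
    IncSet Y = D) ∨ ∃ y ∈ X, Iic y = D)}
  have hD : #D ≤ μ := by
    refine small_mono (t := (IncSet '' {Y : Set Q | Y ⊆ X ∧ #Y < μ}) ∪ (Iic '' X)) ?_
      (small_union hinf ?_ ?_)
    · rintro D ⟨_, (⟨Y, hY, rfl⟩ | ⟨y, hy, rfl⟩)⟩
      · exact Or.inl ⟨Y, hY, rfl⟩
      · exact Or.inr ⟨y, hy, rfl⟩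
    · exact Cardinal.mk_image_le.trans (card_small_subsets hreg hpow X hX1)
    · exact Cardinal.mk_image_le.trans hX1
  obtain ⟨x, hx⟩ : ∃ x : Q, ∀ d ∈ D, x ∉ d := by
    by_contra h
    push Not at h
    refine hcon ⟨D, hD, fun I hI => hI.1, ?_⟩
    intro x _
    obtain ⟨d, hd, hxd⟩ := h x
    exact ⟨d, hd, hxd⟩
  obtain ⟨A, hA1, hA2, hA3⟩ := greedy (I := PUnit.{u+1}) (fun _ => X) (fun _ _ _ => subset_rfl)
    (Inc : Q → Q → Prop) (fun a b h => ⟨h.2, h.1⟩) (fun y => Inc y x)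
  have hanti : IsAntichain (· ≤ ·) A := fun a ha b hb hab => (hA2 a ha b hb hab).1
  have hcard : #(A ∩ X : Set Q) < μ :=
    (Cardinal.mk_le_mk_of_subset inter_subset_left).trans_lt (hA A hanti)
  have hxin : x ∈ IncSet (A ∩ X) := fun y hy => ⟨(hA1 y hy.1).2, (hA1 y hy.1).1⟩
  have hnd : ¬ DirL μ (IncSet (A ∩ X)) := fun hd =>
    hx _ ⟨hd, Or.inl ⟨A ∩ X, ⟨inter_subset_right, hcard⟩, rfl⟩⟩ hxin
  obtain ⟨W, hWX, hWc, hW, hno⟩ := hX2 (A ∩ X) inter_subset_right hcard hnd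
  have key : ∀ c ∈ X, c ∈ IncSet (A ∩ X) → c ≤ x := by
    intro c hcX hc
    by_contra hcx
    have hxc : ¬ x ≤ c := by
      intro hle
      exact hx (Iic c) ⟨dirL_Iic c, Or.inr ⟨c, hcX, rfl⟩⟩ hle
    have hcA : c ∈ A := hA3 PUnit.unit c hcX ⟨hcx, hxc⟩ (fun y hy => ⟨(hc y hy).2, (hc y hy).1⟩)
    exact (hc c ⟨hcA, hcX⟩).1 le_rfl
  exact hno x hxin (fun w hw => key w (hWX hw) (hW hw))

/-- The theorem of Milner and Prikry on weakly compact cardinals (also valid for `ℵ₀`), with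
highly directed sets. -/
theorem weakly_cov_l (hreg : μ.IsRegular) (hsl : μ.IsStrongLimit) (hpow : ∀ c < μ, μ ^ c ≤ μ)
    (hlim : LimitProp μ)
    (hA : ∀ A : Set Q, IsAntichain (· ≤ ·) A → #A < μ) :
    ∃ 𝓘 : Set (Set Q), #𝓘 < μ ∧ (∀ I ∈ 𝓘, DirL μ I) ∧ (Set.univ : Set Q) ⊆ ⋃₀ 𝓘 := by
  classical
  have hinf : ℵ₀ ≤ μ := hreg.aleph0_le
  let J : Set Q → Prop := fun S => ∃ 𝓘 : Set (Set Q), #𝓘 < μ ∧
    (∀ I ∈ 𝓘, DirL μ I) ∧ S ⊆ ⋃₀ 𝓘
  have Jmono : ∀ S T : Set Q, S ⊆ T → J T → J S := by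
    rintro S T hST ⟨I, h1, h2, h3⟩
    exact ⟨I, h1, h2, hST.trans h3⟩
  have JUnion : ∀ (K : Type u) (_ : #K < μ) (S : K → Set Q), (∀ k, J (S k)) → J (⋃ k, S k) := by
    intro K hK S hS
    choose I h1 h2 h3 using hS
    refine ⟨⋃ k, I k, (Cardinal.card_iUnion_lt_iff_forall_of_isRegular hreg hK).2 h1, ?_, ?_⟩
    · intro D hD
      obtain ⟨k, hk⟩ := mem_iUnion.1 hD
      exact h2 k D hk
    · intro x hx
      obtain ⟨k, hk⟩ := mem_iUnion.1 hx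
      obtain ⟨D, hD, hxD⟩ := h3 k hk
      exact ⟨D, mem_iUnion.2 ⟨k, hD⟩, hxD⟩
  have Jdir : ∀ S : Set Q, DirL μ S → J S := by
    intro S hS
    refine ⟨{S}, ?_, ?_, by simp⟩
    · rw [Cardinal.mk_singleton]
      exact one_lt_aleph0.trans_le hinf
    · rintro I rfl
      exact hS
  have Jempty : J ∅ := ⟨∅, by simpa using hreg.pos, by simp, by simp⟩
  have Junion : ∀ S T : Set Q, J S → J T → J (S ∪ T) := by
    intro S T hS hT
    have h1 : J (⋃ b : ULift.{u} Bool, if b.down then S else T) := by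
      refine JUnion (ULift.{u} Bool) ?_ _ ?_
      · refine lt_of_lt_of_le ?_ hinf
        exact Cardinal.lt_aleph0_of_finite _
      · rintro ⟨b⟩
        cases b
        · simpa using hT
        · simpa using hS
    refine Jmono _ _ ?_ h1
    rintro x (hx | hx)
    · exact mem_iUnion.2 ⟨⟨true⟩, by simpa using hx⟩
    · exact mem_iUnion.2 ⟨⟨false⟩, by simpa using hx⟩
  by_contra hcon
  have hP : ¬ J Set.univ := hcon
  obtain ⟨X, hX1, hX2⟩ := closed_sets (Q := Q) hreg hpow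
  have hQ : Nonempty Q := by
    by_contra h
    rw [not_nonempty_iff] at h
    refine hP (Jmono _ _ ?_ Jempty)
    intro x
    exact isEmptyElim x
  obtain ⟨e, he⟩ := exists_range (T := μ.ord.ToType) X (by rw [Cardinal.mk_ord_toType]; exact hX1)
  -- the status of `x` relative to `e i`
  let F : Q → μ.ord.ToType → Bool := fun x i => decide (e i ≤ x)
  have hxi : ∀ i : μ.ord.ToType, ∃ x : Q, ¬ J {y | ∀ j < i, F y j = F x j} := by
    intro i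
    by_contra h
    push Not at h
    apply hP
    have h2 : J (⋃ ψ : Iio i → Bool, {y | ∀ j : Iio i, F y j = ψ j}) := by
      refine JUnion (Iio i → Bool) ?_ _ ?_
      · have : #(Iio i → Bool) = 2 ^ #(Iio i) := by simp
        rw [this]
        exact hsl.isStrongPrelimit (mk_Iio_lt_of i)
      · intro ψ
        by_cases hne : {y | ∀ j : Iio i, F y j = ψ j}.Nonempty
        · obtain ⟨x, hx⟩ := hne
          refine Jmono _ _ ?_ (h x)
          intro y hy j hj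
          rw [hy ⟨j, hj⟩, hx ⟨j, hj⟩]
        · rw [not_nonempty_iff_eq_empty] at hne
          rw [hne]
          exact Jempty
    refine Jmono _ _ ?_ h2
    intro x _
    exact mem_iUnion.2 ⟨fun j => F x j, fun j => rfl⟩
  choose x hx using hxi
  obtain ⟨f, hf⟩ := hlim (fun i => F (x i))
  -- positive sets along the branch
  have hpos : ∀ α : μ.ord.ToType,
      ¬ J {y | (∀ j < α, F y j = f j) ∧ ∀ j < α, ¬ y ≤ e j} := by
    intro α hJ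
    obtain ⟨i, hi, hij⟩ := hf α
    apply hx i
    refine Jmono _ _ ?_ (Junion _ _ hJ (JUnion (Iio α) (mk_Iio_lt_of α)
      (fun j => Iic (e j)) (fun j => Jdir _ (dirL_Iic _))))
    intro y hy
    by_cases h : ∀ j < α, ¬ y ≤ e j
    · left
      refine ⟨fun j hj => ?_, h⟩
      rw [← hij j hj]
      exact hy j (hj.trans_le hi)
    · right
      push Not at h
      obtain ⟨j, hj, hyj⟩ := h
      exact mem_iUnion.2 ⟨⟨j, hj⟩, hyj⟩
  have hr : ∀ a ∈ X, ∃ i, e i = a := fun a ha => he ha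
  have hne : Nonempty μ.ord.ToType := by
    rw [← Cardinal.mk_ne_zero_iff, Cardinal.mk_ord_toType]
    exact hreg.pos.ne'
  choose! r hr using hr
  obtain ⟨Y, hY1, hY2, hY3⟩ := greedy (I := PUnit.{u+1}) (fun _ => X) (fun _ _ _ => subset_rfl)
    (Inc : Q → Q → Prop) (fun a b h => ⟨h.2, h.1⟩) (fun y => y ∈ X ∧ f (r y) = false)
  have hanti : IsAntichain (· ≤ ·) Y := fun a ha b hb hab => (hY2 a ha b hb hab).1
  have hYc : #Y < μ := hA Y hanti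
  obtain ⟨α, hα⟩ := bounded_of_lt hreg (r '' Y) (Cardinal.mk_image_le.trans_lt hYc)
  have hsub : ∀ β, α ≤ β → {y | (∀ j < β, F y j = f j) ∧ ∀ j < β, ¬ y ≤ e j} ⊆ IncSet Y := by
    rintro β hβ z ⟨hz1, hz2⟩ y hy
    have hry : r y < β := (hα _ ⟨y, hy, rfl⟩).trans_le hβ
    have hey : e (r y) = y := hr y (hY1 y hy).1
    refine ⟨?_, ?_⟩
    · have := hz2 _ hry
      rwa [hey] at this
    · have h1 := hz1 _ hry
      rw [(hY1 y hy).2] at h1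
      have h2 : ¬ e (r y) ≤ z := by
        simpa [F] using h1
      rwa [hey] at h2
  have hnd : ¬ DirL μ (IncSet Y) := fun hd =>
    hpos α (Jmono _ _ (hsub α le_rfl) (Jdir _ hd))
  obtain ⟨W, hWX, hWc, hW, hno⟩ := hX2 Y (fun y hy => (hY1 y hy).1) hYc hnd
  have key : ∀ c ∈ X, c ∈ IncSet Y → f (r c) = true := by
    intro c hcX hc
    by_contra hcx
    rw [Bool.not_eq_true] at hcx
    have hcA : c ∈ Y := hY3 PUnit.unit c hcX ⟨hcX, hcx⟩ (fun y hy => ⟨(hc y hy.1).2, (hc y hy.1).1⟩)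
    exact (hc c hcA).1 le_rfl
  obtain ⟨β, hβ⟩ := bounded_of_lt hreg ({α} ∪ r '' W) (by
    refine (Cardinal.mk_union_le _ _).trans_lt (Cardinal.add_lt_of_lt hinf ?_ ?_)
    · rw [Cardinal.mk_singleton]
      exact one_lt_aleph0.trans_le hinf
    · exact Cardinal.mk_image_le.trans_lt hWc)
  obtain ⟨z, hz⟩ : {y | (∀ j < β, F y j = f j) ∧ ∀ j < β, ¬ y ≤ e j}.Nonempty := by
    by_contra h
    rw [not_nonempty_iff_eq_empty] at h
    apply hpos β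
    rw [h]
    exact Jempty
  have hle : ∀ c ∈ X, c ∈ IncSet Y → r c < β → c ≤ z := by
    intro c hcX hc hrc
    have h1 := hz.1 _ hrc
    rw [key c hcX hc] at h1
    have h2 : e (r c) ≤ z := by simpa [F] using h1
    rwa [hr c hcX] at h2
  exact hno z (hsub β (hβ α (by simp)).le hz)
    (fun w hw => hle w (hWX hw) (hW hw) (hβ _ (Or.inr ⟨w, hw, rfl⟩)))

end

theorem ideals_of_covL {P : Type u} [PartialOrder P] {μ : Cardinal.{u}} (hμ : ℵ₀ ≤ μ)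
    (JJ : Set (Set P)) (h2 : ∀ J ∈ JJ, DirL μ J) (h3 : (univ : Set P) ⊆ ⋃₀ JJ) :
    ∃ S : Set (Order.Ideal P), (∀ I ∈ S, ∀ T : Set P, (∀ t ∈ T, t ∈ I) → #T < μ →
      ∃ b ∈ I, ∀ t ∈ T, t ≤ b) ∧ #S ≤ #JJ ∧ ∀ x : P, ∃ I ∈ S, x ∈ I := by
  classical
  have hf : ∀ J : {J // J ∈ JJ ∧ J.Nonempty}, ∃ I : Order.Ideal P, ∀ x, x ∈ I ↔ x ∈ dn J.1 := by
    rintro ⟨J, hJ, hne⟩
    refine ⟨⟨⟨dn J, ?_⟩, ?_, ?_⟩, fun x => Iff.rfl⟩
    · rintro a b hba ⟨d, hd, had⟩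
      exact ⟨d, hd, hba.trans had⟩
    · obtain ⟨a, ha⟩ := hne
      exact ⟨a, a, ha, le_rfl⟩
    · rintro a ⟨d, hd, had⟩ b ⟨d', hd', hbd'⟩
      obtain ⟨e, he, hde, hd'e⟩ := (h2 J hJ).directedOn hμ d hd d' hd'
      exact ⟨e, ⟨e, he, le_rfl⟩, had.trans hde, hbd'.trans hd'e⟩
  choose f hf using hf
  refine ⟨range f, ?_, ?_, ?_⟩
  · rintro _ ⟨J, rfl⟩ T hT hc
    obtain ⟨b, hb, hb2⟩ := dn_dirL (h2 J.1 J.2.1) T (fun t ht => (hf J t).1 (hT t ht)) hc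
    exact ⟨b, (hf J b).2 hb, hb2⟩
  · refine Cardinal.mk_range_le.trans ?_
    exact Cardinal.mk_le_mk_of_subset (s := {J | J ∈ JJ ∧ J.Nonempty}) (fun J hJ => hJ.1)
  · intro x
    obtain ⟨J, hJ, hxJ⟩ := h3 (mem_univ x)
    exact ⟨f ⟨J, hJ, ⟨x, hxJ⟩⟩, ⟨_, rfl⟩, (hf _ x).2 ⟨x, hxJ, le_rfl⟩⟩

end Pool.Agent.Y972.DI
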