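import Pool.Agent.Helper113.FTable
import Pool.Agent.Y972.DI.Dir

set_option autoImplicit false

/-!
# A disjoint sum of regular cardinals is not covered by few highly directed ideals
-/

universe u

namespace Pool.Agent.Y972.DI

open Cardinal Set Pool.Agent.Helper113.G Pool.Agent.Helper113.F

/-- For every singular `μ` there is a partial order without antichain of cardinality `μ` such that every covering of it by ideals in
which all subsets of cardinality less than `μ` have upper bounds has at least `μ` members. -/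
theorem sharp {μ : Cardinal.{u}} (hμ : μ.IsSingular) :
    ∃ (P : Type u) (_ : PartialOrder P), (¬ ∃ A : Set P, IsAntichain (· ≤ ·) A ∧ #A = μ) ∧
      ∀ S : Set (Order.Ideal P), (∀ I ∈ S, ∀ T : Set P, (∀ t ∈ T, t ∈ I) → #T < μ →
        ∃ b ∈ I, ∀ t ∈ T, t ≤ b) → (∀ x : P, ∃ I ∈ S, x ∈ I) → μ ≤ #S := by
  classical
  have hinf : ℵ₀ ≤ μ := hμ.aleph0_le
  have hlim : ∀ c < μ, Order.succ c < μ := by
    intro c hc
    refine lt_of_le_of_ne (Order.succ_le_of_lt hc) ?_
    intro h
    rcases lt_or_ge c ℵ₀ with hc0 | hc0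
    · have : Order.succ c < ℵ₀ := isSuccLimit_aleph0.succ_lt hc0
      rw [h] at this
      exact absurd hinf (not_le.2 this)
    · exact hμ.not_isRegular (h ▸ isRegular_succ hc0)
  obtain ⟨m, hm, -, -⟩ := exists_growing_scale_ge μ hμ (fun c => c) (fun c hc => hc) 0 hμ.pos
  let κ : (μ.ord.cof).ord.ToType → Cardinal.{u} := fun i => Order.succ (m i)
  have hκreg : ∀ i, (κ i).IsRegular := fun i => isRegular_succ (hm.inf i)
  have hκlt : ∀ i, κ i < μ := fun i => hlim _ (hm.lt i)
  have hκbig : ∀ ν < μ, ∃ i, ν < κ i := by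
    intro ν hν
    obtain ⟨i, hi⟩ := hm.cofinal ν hν
    exact ⟨i, hi.trans (Order.lt_succ _)⟩
  refine ⟨Σ i : (μ.ord.cof).ord.ToType, (κ i).ord.ToType, inferInstance, ?_, ?_⟩
  · rintro ⟨A, hA, hAc⟩
    have hinj : Function.Injective (fun a : A => a.1.1) := by
      rintro ⟨⟨i, a⟩, ha⟩ ⟨⟨j, b⟩, hb⟩ hab
      obtain rfl : i = j := hab
      by_contra hne
      have hne' : (⟨i, a⟩ : Σ i : (μ.ord.cof).ord.ToType, (κ i).ord.ToType) ≠ ⟨i, b⟩ := fun h => hne (Subtype.ext h)
      rcases le_total a b with h | h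
      · exact hA ha hb hne' (Sigma.mk_le_mk_iff.2 h)
      · exact hA hb ha hne'.symm (Sigma.mk_le_mk_iff.2 h)
    have h1 := Cardinal.mk_le_of_injective hinj
    rw [hAc, Cardinal.mk_ord_toType] at h1
    exact absurd hμ.cof_ord_lt (not_lt.2 h1)
  · intro S hS hcov
    by_contra hlt
    rw [not_le] at hlt
    obtain ⟨i, hi⟩ := hκbig _ hlt
    have hsize : ∀ I ∈ S, #{a : (κ i).ord.ToType | (⟨i, a⟩ : Σ i : (μ.ord.cof).ord.ToType, (κ i).ord.ToType) ∈ I}
        < κ i := by
      intro I hI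
      by_cases hne : ∃ a : (κ i).ord.ToType, (⟨i, a⟩ : Σ i : (μ.ord.cof).ord.ToType, (κ i).ord.ToType) ∈ I
      · obtain ⟨b, hb, hb2⟩ := hS I hI
          ((fun a => (⟨i, a⟩ : Σ i : (μ.ord.cof).ord.ToType, (κ i).ord.ToType)) ''
            {a : (κ i).ord.ToType | (⟨i, a⟩ : Σ i : (μ.ord.cof).ord.ToType, (κ i).ord.ToType) ∈ I})
          (by
            rintro _ ⟨a, ha, rfl⟩
            exact ha)
          (by
            refine (Cardinal.mk_image_le.trans (Cardinal.mk_set_le _)).trans_lt ?_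
            rw [Cardinal.mk_ord_toType]
            exact hκlt i)
        obtain ⟨a0, ha0⟩ := hne
        obtain ⟨j, b⟩ := b
        have h1 := hb2 _ ⟨a0, ha0, rfl⟩
        obtain rfl : i = j := by
          rw [Sigma.le_def] at h1
          exact h1.1
        have h2 : {a : (κ i).ord.ToType | (⟨i, a⟩ : Σ i : (μ.ord.cof).ord.ToType, (κ i).ord.ToType) ∈ I} ⊆ Iic b := by
          intro a ha
          exact Sigma.mk_le_mk_iff.1 (hb2 _ ⟨a, ha, rfl⟩)
        refine (Cardinal.mk_le_mk_of_subset h2).trans_lt ?_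
        have h5 : #(Iic b) ≤ #(Iio b) + 1 := by
          rw [← Iio_insert]
          exact Cardinal.mk_insert_le
        exact h5.trans_lt (Cardinal.add_lt_of_lt (hκreg i).aleph0_le (mk_Iio_lt_of b)
          (one_lt_aleph0.trans_le (hκreg i).aleph0_le))
      · have h2 : {a : (κ i).ord.ToType | (⟨i, a⟩ : Σ i : (μ.ord.cof).ord.ToType, (κ i).ord.ToType) ∈ I} = ∅ := by
          ext a
          simp only [mem_empty_iff_false, iff_false]
          exact fun h => hne ⟨a, h⟩
        rw [h2]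
        simpa using (hκreg i).pos
    have h2 := (Cardinal.card_iUnion_lt_iff_forall_of_isRegular (hκreg i) hi
      (t := fun I : S => {a : (κ i).ord.ToType |
        (⟨i, a⟩ : Σ i : (μ.ord.cof).ord.ToType, (κ i).ord.ToType) ∈ I.1})).2 (fun I => hsize I.1 I.2)
    have h3 : (Set.univ : Set (κ i).ord.ToType) ⊆ ⋃ I : S, {a : (κ i).ord.ToType |
        (⟨i, a⟩ : Σ i : (μ.ord.cof).ord.ToType, (κ i).ord.ToType) ∈ I.1} := by
      intro a _
      obtain ⟨I, hI, ha⟩ := hcov ⟨i, a⟩
      exact mem_iUnion.2 ⟨⟨I, hI⟩, ha⟩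
    have h4 := (Cardinal.mk_le_mk_of_subset h3).trans_lt h2
    rw [Cardinal.mk_univ, Cardinal.mk_ord_toType] at h4
    exact lt_irrefl _ h4

end Pool.Agent.Y972.DI
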